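import Pool.Agent.H930R3.BK.Y3

/-!
# Central zeros of quadratic L-functions: a comparison principle

The Artin L-functions of the quadratic (orthogonal) characters of degree one of Galois groups over `ℚ` are the
Dirichlet L-functions of the primitive quadratic characters; part (ii) of the problem asks that they do not
vanish at `s = 1/2`. Let `χ₁`, `χ₂` be nontrivial quadratic Dirichlet characters (primitive or not) and
`Pᵢ(x) = ∏_{p ≤ x} (1 - χᵢ(p)/√p)⁻¹` the partial Euler products of `L(s,χᵢ)` at `s = 1/2`. Suppose that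

`P₁(x) (e ^ γ log x) ^ κ ≥ A P₂(x)` for all large `x`, with some real `κ` and `A > 0`,

or only that this holds for the logarithmic means of the logarithms. Then:

* if every zero of `L(s,χ₂)` in `(1/2,1)` (none is known or expected) is a zero of `L(s,χ₁)` of at least the same
  order, then `L(s,χ₁)` and `L(s,χ₂)` have the same zeros, with the same multiplicities, in the half
  plane `Re s > 1/2`, the central orders `mᵢ` satisfy `m₁ ≤ m₂ + κ`, and in the case of equality the
  leading coefficients satisfy `|c₁| ≥ A |c₂|`;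
* if `L(s,χ₂)` has no zero in `(0,1)` and `κ < 1`, then `L(1/2,χ₁) ≠ 0`, and even `L(s,χ₁) > 0` for all
  `0 < s < 1`; if `κ = 0`, then moreover `L(1/2,χ₁) ≥ A L(1/2,χ₂)`.

So central non-vanishing is inherited from one quadratic character by any other one through a one-sided
comparison of partial products (that is, of the sums `∑_{p ≤ x} (χ₁(p) - χ₂(p))/√p`), and the inequality
`P₁ ≥ A P₂` passes to the central values with the same constant. This is unconditional; the
converse statement, for two-sided asymptotics, belongs to the deep Riemann hypothesis.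

Proof: `Fᵢ(s) = L(s - 1/2,χᵢ)²` is an Euler product of degree two; the comparison gives
`F₁ = F₂ exp (W + (s - 1)² D)` with `W` holomorphic for `Re s > 1` and explicit near `s = 1`, and `D` a
Dirichlet series with nonnegative coefficients; at the real point of the line of absolute convergence of `D` its
positivity gives `ord F₁ ≤ ord F₂`, and Landau's theorem applies to the quotient. Used: the libraries of
helper234 (`H234R4`, comparison of elliptic curves, quadratic characters) and helper438 (`H438R3.BSD`).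
-/

set_option autoImplicit false

open Filter Topology

namespace Pool.Agent.Results.MP_3b6604_nt.QuadraticComparison

open Pool.Agent.H930R3.BK.Chi

/-- The comparison principle for the central orders, leading coefficients and zeros of two quadratic
L-functions. -/
theorem result (N₁ N₂ : ℕ) [NeZero N₁] [NeZero N₂] (χ₁ : DirichletCharacter ℂ N₁)
    (χ₂ : DirichletCharacter ℂ N₂) (h11 : χ₁ ≠ 1) (h12 : χ₁ ^ 2 = 1) (h21 : χ₂ ≠ 1) (h22 : χ₂ ^ 2 = 1)
    (κ A : ℝ) (hA : 0 < A)
    (h : (∀ᶠ x : ℕ in atTop, A * PP χ₂ x ≤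
        PP χ₁ x * (Real.exp Real.eulerMascheroniConstant * Real.log x) ^ κ) ∨
      ∀ η : ℝ, 0 < η → ∀ᶠ x : ℕ in atTop, Real.log A - η ≤ CL χ₁ χ₂ κ x) :
    -- the zeros, the orders and the leading coefficients at `1/2`
    ((∀ σ : ℝ, 1 / 2 < σ → σ < 1 →
        analyticOrderAt χ₂.LFunction σ ≤ analyticOrderAt χ₁.LFunction σ) →
      (∀ ρ : ℂ, 1 / 2 < ρ.re →
        analyticOrderAt χ₁.LFunction ρ = analyticOrderAt χ₂.LFunction ρ) ∧
      ∃ (m₁ m₂ : ℕ) (c₁ c₂ : ℂ), analyticOrderAt χ₁.LFunction (1 / 2) = m₁ ∧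
        analyticOrderAt χ₂.LFunction (1 / 2) = m₂ ∧ c₁ ≠ 0 ∧ c₂ ≠ 0 ∧
        Tendsto (fun s : ℂ => χ₁.LFunction s / (s - 1 / 2) ^ m₁) (𝓝[≠] (1 / 2)) (𝓝 c₁) ∧
        Tendsto (fun s : ℂ => χ₂.LFunction s / (s - 1 / 2) ^ m₂) (𝓝[≠] (1 / 2)) (𝓝 c₂) ∧
        (m₁ : ℝ) ≤ m₂ + κ ∧ ((m₁ : ℝ) = m₂ + κ → A * ‖c₂‖ ≤ ‖c₁‖)) ∧
    -- the positivity on `(0,1)` and the central values
    ((∀ s : ℝ, 0 < s → s < 1 → χ₂.LFunction (s : ℂ) ≠ 0) → κ < 1 →
      (∀ s : ℝ, 0 < s → s < 1 →
        (χ₁.LFunction (s : ℂ)).im = 0 ∧ 0 < (χ₁.LFunction (s : ℂ)).re) ∧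
      (κ = 0 → A * (χ₂.LFunction (1 / 2)).re ≤ (χ₁.LFunction (1 / 2)).re)) := by
  have h' : ∀ η : ℝ, 0 < η → ∀ᶠ x : ℕ in atTop, Real.log A - η ≤ CL χ₁ χ₂ κ x := by
    rcases h with h | h
    · exact fun η hη => point_mean χ₁ χ₂ h12 h22 κ A hA h η hη
    · exact h
  refine ⟨fun hreal => comparison χ₁ χ₂ h11 h12 h21 h22 hreal κ A hA h', fun hpos hκ => ?_⟩
  obtain ⟨h3, h4⟩ := transport χ₁ χ₂ h11 h12 h21 h22 hpos κ A hκ hA h'
  exact ⟨fun s hs _ => h3 s hs, h4⟩

end Pool.Agent.Results.MP_3b6604_nt.QuadraticComparison
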